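import Mathlib

set_option autoImplicit false

/-!
# FF65/Gen: generic points and segments which miss a small bad set

`Bad` lies in a countable union of affine subspaces of codimension at least three.
-/

open Set Filter Topology Metric

namespace Pool.FF65

variable {E : Type*} [NormedAddCommGroup E] [NormedSpace ℝ E] [FiniteDimensional ℝ E]

/-- a nonempty open set has a point off countably many proper affine subspaces -/
theorem exists_off_countable {ι : Type*} [Countable ι] (A : ι → AffineSubspace ℝ E)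
    (hA : ∀ i, A i ≠ ⊤) {U : Set E} (hU : IsOpen U) (hne : U.Nonempty) :
    ∃ y ∈ U, ∀ i, y ∉ A i := by
  have : CompleteSpace E := FiniteDimensional.complete ℝ E
  have h1 : ∀ i, IsOpen ((A i : Set E)ᶜ) := fun i =>
    (AffineSubspace.closed_of_finiteDimensional (A i)).isOpen_compl
  have h2 : ∀ i, Dense ((A i : Set E)ᶜ) := by
    intro i
    rw [← interior_eq_empty_iff_dense_compl]
    by_contra hcon
    have h3 : (interior (A i : Set E)).Nonempty := Set.nonempty_iff_ne_empty.2 hcon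
    have h4 := isOpen_interior.affineSpan_eq_top h3
    apply hA i
    rw [eq_top_iff, ← h4]
    exact affineSpan_le.2 interior_subset
  have h5 : Dense (⋂ i, ((A i : Set E)ᶜ)) := dense_iInter_of_isOpen h1 h2
  obtain ⟨y, hyU, hy⟩ := h5.inter_open_nonempty U hU hne
  refine ⟨y, hyU, fun i hi => ?_⟩
  exact (mem_iInter.1 hy i) hi

omit [FiniteDimensional ℝ E] in
/-- the affine span with two more points stays proper -/
theorem span_two_ne_top (A : AffineSubspace ℝ E)
    (hA : Module.finrank ℝ A.direction + 3 ≤ Module.finrank ℝ E) (w w' : E) :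
    affineSpan ℝ (insert w (insert w' (A : Set E))) ≠ ⊤ := by
  intro h
  have h1 : Module.finrank ℝ (vectorSpan ℝ (insert w (insert w' (A : Set E)))) ≤
      Module.finrank ℝ (vectorSpan ℝ (insert w' (A : Set E))) + 1 :=
    finrank_vectorSpan_insert_le_set ℝ _ w
  have h2 : Module.finrank ℝ (vectorSpan ℝ (insert w' (A : Set E))) ≤
      Module.finrank ℝ (vectorSpan ℝ (A : Set E)) + 1 :=
    finrank_vectorSpan_insert_le_set ℝ _ w'
  have h3 : Module.finrank ℝ (vectorSpan ℝ (A : Set E)) = Module.finrank ℝ A.direction := rfl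
  have h4 : Module.finrank ℝ (vectorSpan ℝ (insert w (insert w' (A : Set E)))) =
      Module.finrank ℝ E := by
    rw [← direction_affineSpan, h, AffineSubspace.direction_top, finrank_top]
  omega

omit [FiniteDimensional ℝ E] in
/-- a point of the cone over `x` from `y`, other than `x`, is not in `A` -/
theorem not_mem_of_cone {A : AffineSubspace ℝ E} {S : Set E} (hS : (A : Set E) ⊆ affineSpan ℝ S)
    {x y z : E} (hx : x ∈ affineSpan ℝ S) (hy : y ∉ affineSpan ℝ S) {t : ℝ} (ht : t ≠ 0)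
    (hz : z = (1 - t) • x + t • y) : z ∉ A := by
  intro hzA
  apply hy
  have h1 : y = AffineMap.lineMap x z (1 / t) := by
    rw [AffineMap.lineMap_apply_module, hz, smul_add, smul_smul, smul_smul]
    have e1 : 1 / t * t = 1 := by field_simp
    have e2 : (1 / t) * (1 - t) = 1 / t - 1 := by field_simp
    rw [e1, e2, one_smul, ← add_assoc, ← add_smul]
    have e3 : (1 - 1 / t) + (1 / t - 1) = 0 := by ring
    rw [e3, zero_smul, zero_add]
  rw [h1]
  exact AffineMap.lineMap_mem _ hx (hS hzA)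

/-- GENERIC POINTS (countably many segments at once): for a nonempty open `U` there is `y ∈ U` such that every triangle
with apex `y` over one of the given segments misses `Bad` as soon as the segment does -/
theorem exists_generic_apex {ι κ : Type*} [Countable ι] [Countable κ] (A : κ → AffineSubspace ℝ E)
    (hA : ∀ k, Module.finrank ℝ (A k).direction + 3 ≤ Module.finrank ℝ E) {Bad : Set E}
    (hBad : Bad ⊆ ⋃ k, (A k : Set E)) (w w' : ι → E) {U : Set E} (hU : IsOpen U)
    (hne : U.Nonempty) :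
    ∃ y ∈ U, ∀ i, (∀ z ∈ segment ℝ (w i) (w' i), z ∉ Bad) →
      ∀ z ∈ convexHull ℝ {y, w i, w' i}, z ∉ Bad := by
  obtain ⟨y, hyU, hy⟩ := exists_off_countable
    (fun q : ι × κ => affineSpan ℝ (insert (w q.1) (insert (w' q.1) (A q.2 : Set E))))
    (fun q => span_two_ne_top (A q.2) (hA q.2) (w q.1) (w' q.1)) hU hne
  refine ⟨y, hyU, fun i hseg z hz hzB => ?_⟩
  rw [convexHull_insert (insert_nonempty _ _), convexHull_pair, convexJoin_singleton_left] at hz
  obtain ⟨x, hx, hzx⟩ := mem_iUnion₂.1 hz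
  obtain ⟨a, b, ha, hb, hab, hzab⟩ := hzx
  -- z = a y + b x
  by_cases h0 : a = 0
  · have hb1 : b = 1 := by linarith
    rw [h0, hb1, zero_smul, one_smul, zero_add] at hzab
    exact hseg z (hzab ▸ hx) hzB
  · obtain ⟨k, hk⟩ := mem_iUnion.1 (hBad hzB)
    have hsub : (A k : Set E) ⊆ affineSpan ℝ (insert (w i) (insert (w' i) (A k : Set E))) :=
      fun v hv => subset_affineSpan ℝ _ (mem_insert_of_mem _ (mem_insert_of_mem _ hv))
    have hx' : x ∈ affineSpan ℝ (insert (w i) (insert (w' i) (A k : Set E))) := by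
      have h1 : w i ∈ affineSpan ℝ (insert (w i) (insert (w' i) (A k : Set E))) :=
        subset_affineSpan ℝ _ (mem_insert _ _)
      have h2 : w' i ∈ affineSpan ℝ (insert (w i) (insert (w' i) (A k : Set E))) :=
        subset_affineSpan ℝ _ (mem_insert_of_mem _ (mem_insert _ _))
      exact (AffineSubspace.convex _).segment_subset h1 h2 hx
    refine not_mem_of_cone hsub hx' (hy (i, k)) h0 ?_ hk
    rw [← hzab, add_comm]
    congr 2
    linarith

/-- GENERIC POINTS, one segment -/
theorem exists_generic_triangle (AA : Set (AffineSubspace ℝ E)) (hc : AA.Countable)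
    (hA : ∀ A ∈ AA, Module.finrank ℝ A.direction + 3 ≤ Module.finrank ℝ E) {Bad : Set E}
    (hBad : ∀ z ∈ Bad, ∃ A ∈ AA, z ∈ A) (w w' : E)
    (hseg : ∀ z ∈ segment ℝ w w', z ∉ Bad) {U : Set E} (hU : IsOpen U) (hne : U.Nonempty) :
    ∃ y ∈ U, ∀ z ∈ convexHull ℝ {y, w, w'}, z ∉ Bad := by
  have := hc.to_subtype
  obtain ⟨y, hyU, hy⟩ := exists_generic_apex (ι := Unit) (fun k : AA => (k : AffineSubspace ℝ E))
    (fun k => hA k.1 k.2) (Bad := Bad) (fun z hz => by
      obtain ⟨A, hA1, hA2⟩ := hBad z hz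
      exact mem_iUnion.2 ⟨⟨A, hA1⟩, hA2⟩) (fun _ => w) (fun _ => w') hU hne
  exact ⟨y, hyU, hy () hseg⟩

/-- GENERIC SEGMENTS (from countably many points at once) -/
theorem exists_generic_ends {ι κ : Type*} [Countable ι] [Countable κ] (A : κ → AffineSubspace ℝ E)
    (hA : ∀ k, Module.finrank ℝ (A k).direction + 3 ≤ Module.finrank ℝ E) {Bad : Set E}
    (hBad : Bad ⊆ ⋃ k, (A k : Set E)) (w : ι → E) {U : Set E} (hU : IsOpen U)
    (hne : U.Nonempty) :
    ∃ y ∈ U, y ∉ Bad ∧ ∀ i, w i ∉ Bad → ∀ z ∈ segment ℝ (w i) y, z ∉ Bad := by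
  obtain ⟨y, hyU, hy⟩ := exists_off_countable
    (fun q : Option ι × κ => affineSpan ℝ (insert ((q.1.map w).getD 0)
      (insert ((q.1.map w).getD 0) (A q.2 : Set E))))
    (fun q => span_two_ne_top (A q.2) (hA q.2) _ _) hU hne
  refine ⟨y, hyU, ?_, ?_⟩
  · intro hyB
    obtain ⟨k, hk⟩ := mem_iUnion.1 (hBad hyB)
    exact hy (none, k) (subset_affineSpan ℝ _ (mem_insert_of_mem _ (mem_insert_of_mem _ hk)))
  · intro i hwi z hz hzB
    obtain ⟨a, b, ha, hb, hab, hzab⟩ := hz
    by_cases h0 : b = 0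
    · have ha1 : a = 1 := by linarith
      rw [h0, ha1, zero_smul, one_smul, add_zero] at hzab
      exact hwi (hzab ▸ hzB)
    · obtain ⟨k, hk⟩ := mem_iUnion.1 (hBad hzB)
      have hsub : (A k : Set E) ⊆ affineSpan ℝ (insert (w i) (insert (w i) (A k : Set E))) :=
        fun v hv => subset_affineSpan ℝ _ (mem_insert_of_mem _ (mem_insert_of_mem _ hv))
      have hx' : w i ∈ affineSpan ℝ (insert (w i) (insert (w i) (A k : Set E))) :=
        subset_affineSpan ℝ _ (mem_insert _ _)
      refine not_mem_of_cone hsub hx' (hy (some i, k)) h0 ?_ hk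
      rw [← hzab]
      congr 2
      linarith

/-- GENERIC SEGMENTS, one point -/
theorem exists_generic_segment (AA : Set (AffineSubspace ℝ E)) (hc : AA.Countable)
    (hA : ∀ A ∈ AA, Module.finrank ℝ A.direction + 3 ≤ Module.finrank ℝ E) {Bad : Set E}
    (hBad : ∀ z ∈ Bad, ∃ A ∈ AA, z ∈ A) {w : E} (hw : w ∉ Bad) {U : Set E} (hU : IsOpen U)
    (hne : U.Nonempty) :
    ∃ w' ∈ U, ∀ z ∈ segment ℝ w w', z ∉ Bad := by
  have := hc.to_subtype
  obtain ⟨y, hyU, -, hy⟩ := exists_generic_ends (ι := Unit)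
    (fun k : AA => (k : AffineSubspace ℝ E))
    (fun k => hA k.1 k.2) (Bad := Bad) (fun z hz => by
      obtain ⟨A, hA1, hA2⟩ := hBad z hz
      exact mem_iUnion.2 ⟨⟨A, hA1⟩, hA2⟩) (fun _ => w) hU hne
  exact ⟨y, hyU, hy () hw⟩

/-- the good set is dense -/
theorem dense_compl_bad (AA : Set (AffineSubspace ℝ E)) (hc : AA.Countable)
    (hA : ∀ A ∈ AA, Module.finrank ℝ A.direction + 3 ≤ Module.finrank ℝ E) {Bad : Set E}
    (hBad : ∀ z ∈ Bad, ∃ A ∈ AA, z ∈ A) : Dense (Badᶜ) := by
  have := hc.to_subtype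
  rw [dense_iff_inter_open]
  intro U hU hne
  obtain ⟨y, hyU, hyB, -⟩ := exists_generic_ends (ι := Empty)
    (fun k : AA => (k : AffineSubspace ℝ E))
    (fun k => hA k.1 k.2) (Bad := Bad) (fun z hz => by
      obtain ⟨A, hA1, hA2⟩ := hBad z hz
      exact mem_iUnion.2 ⟨⟨A, hA1⟩, hA2⟩) (fun x => x.elim) hU hne
  exact ⟨y, hyU, hyB⟩

/-! ### the same with the filter of residual sets -/

/-- generic points are off countably many proper affine subspaces -/
theorem eventually_off_countable {ι : Type*} [Countable ι] (A : ι → AffineSubspace ℝ E)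
    (hA : ∀ i, A i ≠ ⊤) : ∀ᶠ y in residual E, ∀ i, y ∉ A i := by
  rw [eventually_countable_forall]
  intro i
  have h1 : IsOpen ((A i : Set E)ᶜ) := (AffineSubspace.closed_of_finiteDimensional (A i)).isOpen_compl
  have h2 : Dense ((A i : Set E)ᶜ) := by
    rw [← interior_eq_empty_iff_dense_compl]
    by_contra hcon
    have h3 : (interior (A i : Set E)).Nonempty := Set.nonempty_iff_ne_empty.2 hcon
    have h4 := isOpen_interior.affineSpan_eq_top h3
    apply hA i
    rw [eq_top_iff, ← h4]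
    exact affineSpan_le.2 interior_subset
  exact residual_of_dense_open h1 h2

/-- (g0) -/
theorem generic_off (AA : Set (AffineSubspace ℝ E)) (hc : AA.Countable)
    (hA : ∀ A ∈ AA, Module.finrank ℝ A.direction + 3 ≤ Module.finrank ℝ E) {Bad : Set E}
    (hBad : ∀ z ∈ Bad, ∃ A ∈ AA, z ∈ A) : ∀ᶠ w in residual E, w ∉ Bad := by
  have := hc.to_subtype
  have h := eventually_off_countable
    (fun k : AA => affineSpan ℝ (insert (0 : E) (insert (0 : E) ((k : AffineSubspace ℝ E) : Set E))))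
    (fun k => span_two_ne_top k.1 (hA k.1 k.2) 0 0)
  filter_upwards [h] with w hw hwB
  obtain ⟨A, hA1, hA2⟩ := hBad w hwB
  exact hw ⟨A, hA1⟩ (subset_affineSpan ℝ _ (mem_insert_of_mem _ (mem_insert_of_mem _ hA2)))

/-- (g1) -/
theorem generic_segment (AA : Set (AffineSubspace ℝ E)) (hc : AA.Countable)
    (hA : ∀ A ∈ AA, Module.finrank ℝ A.direction + 3 ≤ Module.finrank ℝ E) {Bad : Set E}
    (hBad : ∀ z ∈ Bad, ∃ A ∈ AA, z ∈ A) {w : E} (hw : w ∉ Bad) :
    ∀ᶠ w' in residual E, ∀ s ∈ Icc (0 : ℝ) 1, AffineMap.lineMap w w' s ∉ Bad := by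
  have := hc.to_subtype
  have h := eventually_off_countable
    (fun k : AA => affineSpan ℝ (insert w (insert w ((k : AffineSubspace ℝ E) : Set E))))
    (fun k => span_two_ne_top k.1 (hA k.1 k.2) w w)
  filter_upwards [h] with w' hw' s hs hB
  by_cases h0 : s = 0
  · rw [h0, AffineMap.lineMap_apply_zero] at hB
    exact hw hB
  · obtain ⟨A, hA1, hA2⟩ := hBad _ hB
    have hsub : (A : Set E) ⊆ affineSpan ℝ (insert w (insert w (A : Set E))) :=
      fun v hv => subset_affineSpan ℝ _ (mem_insert_of_mem _ (mem_insert_of_mem _ hv))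
    have hx' : w ∈ affineSpan ℝ (insert w (insert w (A : Set E))) :=
      subset_affineSpan ℝ _ (mem_insert _ _)
    exact not_mem_of_cone hsub hx' (hw' ⟨A, hA1⟩) h0 (AffineMap.lineMap_apply_module _ _ _) hA2

/-- (g2) -/
theorem generic_triangle (AA : Set (AffineSubspace ℝ E)) (hc : AA.Countable)
    (hA : ∀ A ∈ AA, Module.finrank ℝ A.direction + 3 ≤ Module.finrank ℝ E) {Bad : Set E}
    (hBad : ∀ z ∈ Bad, ∃ A ∈ AA, z ∈ A) {w w' : E}
    (hseg : ∀ s ∈ Icc (0 : ℝ) 1, AffineMap.lineMap w w' s ∉ Bad) :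
    ∀ᶠ y in residual E, ∀ θ ∈ Icc (0 : ℝ) 1, ∀ s ∈ Icc (0 : ℝ) 1,
      AffineMap.lineMap y (AffineMap.lineMap w w' θ) s ∉ Bad := by
  have := hc.to_subtype
  have h := eventually_off_countable
    (fun k : AA => affineSpan ℝ (insert w (insert w' ((k : AffineSubspace ℝ E) : Set E))))
    (fun k => span_two_ne_top k.1 (hA k.1 k.2) w w')
  filter_upwards [h] with y hy θ hθ s hs hB
  by_cases h0 : s = 1
  · rw [h0, AffineMap.lineMap_apply_one] at hB
    exact hseg θ hθ hB
  · obtain ⟨A, hA1, hA2⟩ := hBad _ hB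
    have hsub : (A : Set E) ⊆ affineSpan ℝ (insert w (insert w' (A : Set E))) :=
      fun v hv => subset_affineSpan ℝ _ (mem_insert_of_mem _ (mem_insert_of_mem _ hv))
    have h1 : w ∈ affineSpan ℝ (insert w (insert w' (A : Set E))) :=
      subset_affineSpan ℝ _ (mem_insert _ _)
    have h2 : w' ∈ affineSpan ℝ (insert w (insert w' (A : Set E))) :=
      subset_affineSpan ℝ _ (mem_insert_of_mem _ (mem_insert _ _))
    have hx' : AffineMap.lineMap w w' θ ∈ affineSpan ℝ (insert w (insert w' (A : Set E))) :=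
      AffineMap.lineMap_mem _ h1 h2
    have h3 : (1 - s) ≠ 0 := fun h3 => h0 (by linarith)
    refine not_mem_of_cone hsub hx' (hy ⟨A, hA1⟩) h3 ?_ hA2
    rw [AffineMap.lineMap_apply_module]
    have h4 : 1 - (1 - s) = s := by ring
    rw [h4, add_comm]

/-- (g3) -/
theorem generic_frequently {U : Set E} (hU : IsOpen U) (hne : U.Nonempty) :
    ∃ᶠ y in residual E, y ∈ U := by
  have : CompleteSpace E := FiniteDimensional.complete ℝ E
  intro h
  have h1 : Dense {y : E | ¬ y ∈ U} := dense_of_mem_residual h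
  obtain ⟨y, hyU, hy⟩ := h1.inter_open_nonempty U hU hne
  exact hy hyU

end Pool.FF65
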