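import Mathlib

set_option autoImplicit false

/-!
# FF65/Cov: tiles of bounded size with a ball inside and disjoint interiors are locally finite, and cover everything as
soon as they cover a dense set
-/

open Set Filter Topology Metric

namespace Pool.FF65

variable {E : Type*} [NormedAddCommGroup E] [NormedSpace ℝ E] [FiniteDimensional ℝ E]

/-- separated families of points in a ball are finite -/
theorem finite_of_separated {ι : Type*} (c : ι → E) {ρ : ℝ} (hρ : 0 < ρ)
    (hsep : ∀ i j, i ≠ j → ρ ≤ dist (c i) (c j)) (x : E) (r : ℝ) :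
    {i | dist (c i) x ≤ r}.Finite := by
  have : ProperSpace E := FiniteDimensional.proper ℝ E
  obtain ⟨t, -, htf, ht⟩ := (isCompact_closedBall x r).finite_cover_balls (half_pos hρ)
  have h1 : ∀ i : {i | dist (c i) x ≤ r}, ∃ y : t, dist (c i) (y : E) < ρ / 2 := by
    rintro ⟨i, hi⟩
    have h2 : c i ∈ closedBall x r := hi
    obtain ⟨y, hy, hiy⟩ := mem_iUnion₂.1 (ht h2)
    exact ⟨⟨y, hy⟩, hiy⟩
  choose f hf using h1
  have : Finite t := htf.to_subtype
  have hinj : Function.Injective f := by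
    intro i j hij
    by_contra hne
    have h3 : (i : ι) ≠ j := fun h => hne (Subtype.ext h)
    have h4 := hsep i j h3
    have h5 := hf i
    have h6 := hf j
    rw [hij] at h5
    have h7 := dist_triangle_right (c i) (c j) (f j : E)
    linarith
  exact Set.finite_coe_iff.1 (Finite.of_injective f hinj)

/-- LOCAL FINITENESS -/
theorem tiles_locally_finite {ι : Type*} (K : ι → Set E) {D ρ : ℝ} (hρ : 0 < ρ)
    (hD : ∀ i, ∀ x ∈ K i, ∀ y ∈ K i, dist x y ≤ D) (hball : ∀ i, ∃ c, ball c ρ ⊆ K i)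
    (hdisj : ∀ i j, i ≠ j → Disjoint (interior (K i)) (interior (K j))) (x : E) (r : ℝ) :
    {i | (K i ∩ closedBall x r).Nonempty}.Finite := by
  choose c hc using hball
  have hci : ∀ i, ball (c i) ρ ⊆ interior (K i) := fun i =>
    interior_maximal (hc i) isOpen_ball
  have hsep : ∀ i j, i ≠ j → ρ ≤ dist (c i) (c j) := by
    intro i j hij
    by_contra hlt
    rw [not_le] at hlt
    have h1 : c i ∈ ball (c j) ρ := hlt
    have h2 : c i ∈ ball (c i) ρ := mem_ball_self hρ
    exact (Set.disjoint_left.1 (hdisj i j hij)) (hci i h2) (hci j h1)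
  refine (finite_of_separated c hρ hsep x (D + r)).subset ?_
  rintro i ⟨z, hz1, hz2⟩
  have h3 := hD i (c i) (hc i (mem_ball_self hρ)) z hz1
  have h4 : dist z x ≤ r := hz2
  have h5 := dist_triangle (c i) z x
  show dist (c i) x ≤ D + r
  linarith

/-- COVERING -/
theorem tiles_cover {ι : Type*} (K : ι → Set E) {D ρ : ℝ} (hρ : 0 < ρ)
    (hD : ∀ i, ∀ x ∈ K i, ∀ y ∈ K i, dist x y ≤ D) (hball : ∀ i, ∃ c, ball c ρ ⊆ K i)
    (hdisj : ∀ i j, i ≠ j → Disjoint (interior (K i)) (interior (K j)))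
    (hclosed : ∀ i, IsClosed (K i)) (hdense : Dense (⋃ i, K i)) : ⋃ i, K i = univ := by
  have hlf : LocallyFinite K := by
    intro x
    refine ⟨closedBall x 1, closedBall_mem_nhds x one_pos, ?_⟩
    exact tiles_locally_finite K hρ hD hball hdisj x 1
  have h1 : IsClosed (⋃ i, K i) := hlf.isClosed_iUnion hclosed
  rw [← h1.closure_eq]
  exact hdense.closure_eq

omit [FiniteDimensional ℝ E] in
/-- the images `e P + t` of a compact set with interior: bounded size and a ball inside -/
theorem tile_bounds {P : Set E} (hP : IsCompact P) (hPi : (interior P).Nonempty) :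
    ∃ D ρ : ℝ, 0 < ρ ∧ ∀ (e : E ≃ₗᵢ[ℝ] E) (t : E),
      (∀ x ∈ (fun z => e z + t) '' P, ∀ y ∈ (fun z => e z + t) '' P, dist x y ≤ D) ∧
      (∃ c, ball c ρ ⊆ (fun z => e z + t) '' P) ∧ IsClosed ((fun z => e z + t) '' P) ∧
      IsCompact ((fun z => e z + t) '' P) := by
  obtain ⟨x₀, hx₀⟩ := hPi
  obtain ⟨ρ, hρ, hball⟩ := Metric.isOpen_iff.1 isOpen_interior x₀ hx₀
  refine ⟨Metric.diam P, ρ, hρ, fun e t => ⟨?_, ?_, ?_⟩⟩
  · rintro _ ⟨x, hx, rfl⟩ _ ⟨y, hy, rfl⟩
    show dist (e x + t) (e y + t) ≤ _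
    rw [dist_add_right, e.dist_map]
    exact Metric.dist_le_diam_of_mem hP.isBounded hx hy
  · refine ⟨e x₀ + t, fun y hy => ?_⟩
    refine ⟨e.symm (y - t), interior_subset (hball ?_), by simp⟩
    rw [mem_ball] at hy ⊢
    have h1 : dist (e.symm (y - t)) x₀ = dist (y - t) (e x₀) := by
      rw [← e.dist_map, e.apply_symm_apply]
    rw [h1, dist_eq_norm]
    rw [dist_eq_norm] at hy
    have h2 : y - t - e x₀ = y - (e x₀ + t) := by abel
    rw [h2]
    exact hy
  · have h3 : Continuous (fun z => e z + t) := e.continuous.add continuous_const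
    exact ⟨(hP.image h3).isClosed, hP.image h3⟩

/-- LOCAL FINITENESS for the tiles `e P + t` -/
theorem congruent_locally_finite {ι : Type*} {P : Set E} (hP : IsCompact P)
    (hPi : (interior P).Nonempty) (e : ι → E ≃ₗᵢ[ℝ] E) (t : ι → E) (K : ι → Set E)
    (hK : ∀ i, K i = (fun z => e i z + t i) '' P)
    (hdisj : ∀ i j, i ≠ j → Disjoint (interior (K i)) (interior (K j))) (x : E) (r : ℝ) :
    {i | (K i ∩ closedBall x r).Nonempty}.Finite := by
  obtain ⟨D, ρ, hρ, h⟩ := tile_bounds hP hPi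
  refine tiles_locally_finite K hρ (D := D) ?_ ?_ hdisj x r
  · intro i
    rw [hK i]
    exact (h (e i) (t i)).1
  · intro i
    rw [hK i]
    exact (h (e i) (t i)).2.1

/-- COVERING for the tiles `e P + t` -/
theorem congruent_cover {ι : Type*} {P : Set E} (hP : IsCompact P)
    (hPi : (interior P).Nonempty) (e : ι → E ≃ₗᵢ[ℝ] E) (t : ι → E) (K : ι → Set E)
    (hK : ∀ i, K i = (fun z => e i z + t i) '' P)
    (hdisj : ∀ i j, i ≠ j → Disjoint (interior (K i)) (interior (K j)))
    (hdense : Dense (⋃ i, K i)) : ⋃ i, K i = univ := by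
  obtain ⟨D, ρ, hρ, h⟩ := tile_bounds hP hPi
  refine tiles_cover K hρ (D := D) ?_ ?_ hdisj ?_ hdense
  · intro i
    rw [hK i]
    exact (h (e i) (t i)).1
  · intro i
    rw [hK i]
    exact (h (e i) (t i)).2.1
  · intro i
    rw [hK i]
    exact (h (e i) (t i)).2.2.1

end Pool.FF65
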