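import Mathlib

set_option autoImplicit false

/-!
# FF65/Abs: families of closed convex sets with local stars: lifts of segments

`K τ` (`τ` a label) closed convex sets, `R p τ σ` = `σ` belongs to the star of `τ` at the point `p`. Off the bad set the
star of a point tiles a neighbourhood. A lift of a path is a choice of labels compatible with the stars.
-/

open Set Filter Topology Metric

namespace Pool.FF65

variable {E L : Type*} [NormedAddCommGroup E] [NormedSpace ℝ E]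

/-- a family of closed convex sets with stars off the bad set -/
structure Stars (K : L → Set E) (Bad : Set E) (R : E → L → L → Prop) : Prop where
  closed : ∀ τ, IsClosed (K τ)
  convex : ∀ τ, Convex ℝ (K τ)
  refl : ∀ p τ, p ∈ K τ → R p τ τ
  mem : ∀ p τ σ, R p τ σ → p ∈ K σ
  symm : ∀ p τ σ, R p τ σ → R p σ τ
  trans : ∀ p τ σ υ, R p τ σ → R p σ υ → R p τ υ
  fin : ∀ p τ, p ∉ Bad → p ∈ K τ → {σ | R p τ σ}.Finite
  loc : ∀ p τ, p ∉ Bad → p ∈ K τ → ∃ ρ > 0, (∀ q, dist q p < ρ → ∃ σ, R p τ σ ∧ q ∈ K σ) ∧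
    ∀ q, q ∉ Bad → dist q p < ρ → ∀ σ, R p τ σ → q ∈ K σ → ∀ σ', R q σ σ' ↔ R p τ σ' ∧ q ∈ K σ'
  lim : ∀ (p : E) (f : ℕ → E) (τ : ℕ → L), (∀ n, f n ∈ K (τ n)) → Tendsto f atTop (𝓝 p) →
    ∃ δ > 0, ∃ᶠ n in atTop, ∃ B : Set L, B.Finite ∧ τ n ∈ B ∧
      ∀ σ ∈ B, ∀ z, dist z p < δ → ∀ σ', R z σ σ' → σ' ∈ B

/-- a lift of the path `c` on the set `I` of times -/
def IsLift (K : L → Set E) (R : E → L → L → Prop) (c : ℝ → E) (l : ℝ → L) (I : Set ℝ) : Prop :=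
  (∀ s ∈ I, c s ∈ K (l s)) ∧ ∀ s₀ ∈ I, ∀ᶠ s in 𝓝[I] s₀, R (c s₀) (l s₀) (l s)

variable {K : L → Set E} {Bad : Set E} {R : E → L → L → Prop}

theorem IsLift.mono {c : ℝ → E} {l : ℝ → L} {I J : Set ℝ} (h : IsLift K R c l I) (hJ : J ⊆ I) :
    IsLift K R c l J :=
  ⟨fun s hs => h.1 s (hJ hs), fun s₀ hs₀ => nhdsWithin_mono s₀ hJ (h.2 s₀ (hJ hs₀))⟩

/-- a predicate which is locally constant on a preconnected set is constant -/
theorem iff_of_loc {I : Set ℝ} (hI : IsPreconnected I) (T : ℝ → Prop)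
    (h : ∀ s₀ ∈ I, ∀ᶠ s in 𝓝[I] s₀, (T s ↔ T s₀)) {a b : ℝ} (ha : a ∈ I) (hb : b ∈ I) :
    T a ↔ T b := by
  refine hI.induction₂ (fun x y => (T x ↔ T y)) ?_ ?_ ?_ ha hb
  · intro x hx
    exact (h x hx).mono fun y hy => hy.symm
  · intro x y z _ _ _ h1 h2
    exact h1.trans h2
  · intro x y _ _ h1
    exact h1.symm

/-- UNIQUENESS up to stars -/
theorem lift_unique (S : Stars K Bad R) {c : ℝ → E} {l l' : ℝ → L} {I : Set ℝ}
    (hI : IsPreconnected I) (hc : ContinuousOn c I) (hb : ∀ s ∈ I, c s ∉ Bad)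
    (h : IsLift K R c l I) (h' : IsLift K R c l' I) {a b : ℝ} (ha : a ∈ I) (hb' : b ∈ I)
    (hab : R (c a) (l a) (l' a)) : R (c b) (l b) (l' b) := by
  refine (iff_of_loc hI (fun s => R (c s) (l s) (l' s)) ?_ ha hb').1 hab
  intro s₀ hs₀
  obtain ⟨ρ, hρ, -, hloc⟩ := S.loc (c s₀) (l s₀) (hb s₀ hs₀) (h.1 s₀ hs₀)
  have h1 : ∀ᶠ s in 𝓝[I] s₀, dist (c s) (c s₀) < ρ := (hc s₀ hs₀).eventually (ball_mem_nhds _ hρ)
  filter_upwards [h1, h.2 s₀ hs₀, h'.2 s₀ hs₀, self_mem_nhdsWithin] with s e1 e2 e3 e4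
  have key := hloc (c s) (hb s e4) e1 (l s) e2 (h.1 s e4) (l' s)
  constructor
  · intro e5
    exact S.trans _ _ _ _ (key.1 e5).1 (S.symm _ _ _ e3)
  · intro e5
    exact key.2 ⟨S.trans _ _ _ _ e5 e3, h'.1 s e4⟩

/-- LOCAL LEMMA: inside the ball of `loc` a lift stays in the star -/
theorem lift_loc (S : Stars K Bad R) {c : ℝ → E} {l : ℝ → L} {I : Set ℝ}
    (hI : IsPreconnected I) (hb : ∀ s ∈ I, c s ∉ Bad)
    (h : IsLift K R c l I) {p : E} {τ : L} {ρ : ℝ}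
    (hloc : ∀ q, q ∉ Bad → dist q p < ρ → ∀ σ, R p τ σ → q ∈ K σ → ∀ σ', R q σ σ' ↔
      R p τ σ' ∧ q ∈ K σ') (hd : ∀ s ∈ I, dist (c s) p < ρ) {a b : ℝ} (ha : a ∈ I) (hb' : b ∈ I)
    (hab : R p τ (l a)) : R p τ (l b) := by
  refine (iff_of_loc hI (fun s => R p τ (l s)) ?_ ha hb').1 hab
  intro s₀ hs₀
  filter_upwards [h.2 s₀ hs₀, self_mem_nhdsWithin] with s e2 e4
  constructor
  · intro e5
    have e6 : c s₀ ∈ K (l s) := S.mem _ _ _ e2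
    exact ((hloc (c s₀) (hb s₀ hs₀) (hd s₀ hs₀) (l s) e5 e6 (l s₀)).1 (S.symm _ _ _ e2)).1
  · intro e5
    exact ((hloc (c s₀) (hb s₀ hs₀) (hd s₀ hs₀) (l s₀) e5 (h.1 s₀ hs₀) (l s)).1 e2).1

/-- near `q` no set of the finite star appears which does not contain `q` -/
theorem star_near (S : Stars K Bad R) {p : E} {τ : L} (hp : p ∉ Bad) (hpτ : p ∈ K τ) (q : E) :
    ∃ η > 0, ∀ q', dist q' q < η → ∀ σ, R p τ σ → q' ∈ K σ → q ∈ K σ := by
  have h1 : ∀ σ ∈ {σ | R p τ σ}, ∀ᶠ q' in 𝓝 q, q' ∈ K σ → q ∈ K σ := by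
    intro σ _
    by_cases hq : q ∈ K σ
    · exact Eventually.of_forall fun _ _ => hq
    · filter_upwards [(S.closed σ).isOpen_compl.mem_nhds hq] with q' hq' h
      exact absurd h hq'
  have h2 := ((S.fin p τ hp hpτ).eventually_all).2 h1
  obtain ⟨η, hη, h3⟩ := Metric.eventually_nhds_iff.1 h2
  exact ⟨η, hη, fun q' hq' σ hσ hqσ => h3 hq' σ hσ hqσ⟩

/-- a constant lift -/
theorem lift_const (S : Stars K Bad R) {c : ℝ → E} {σ : L} {I : Set ℝ}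
    (h : ∀ s ∈ I, c s ∈ K σ) : IsLift K R c (fun _ => σ) I :=
  ⟨h, fun s₀ hs₀ => Eventually.of_forall fun _ => S.refl _ _ (h s₀ hs₀)⟩

end Pool.FF65
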