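import Pool.Agent.FF65.Tri

set_option autoImplicit false

/-!
# FF65/Over: sets of a star space which can be reached from each other do not overlap, and cover

Genericity is expressed by a filter `G`.
-/

open Set Filter Topology Metric

namespace Pool.FF65

variable {E L : Type*} [NormedAddCommGroup E] [NormedSpace ℝ E]

/-- two labels with a common star at a good point -/
def Nb (Bad : Set E) (R : E → L → L → Prop) (τ σ : L) : Prop := ∃ f, f ∉ Bad ∧ R f τ σ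

/-- chains of labels -/
def Reach (Bad : Set E) (R : E → L → L → Prop) (τ σ : L) : Prop :=
  Relation.ReflTransGen (Nb Bad R) τ σ

/-- generic points with respect to a filter -/
structure Gen (Bad : Set E) (G : Filter E) : Prop where
  g0 : ∀ᶠ w in G, w ∉ Bad
  g1 : ∀ w, w ∉ Bad → ∀ᶠ w' in G, ∀ s ∈ Icc (0 : ℝ) 1, AffineMap.lineMap w w' s ∉ Bad
  g2 : ∀ w w' : E, (∀ s ∈ Icc (0 : ℝ) 1, AffineMap.lineMap w w' s ∉ Bad) →
    ∀ᶠ y in G, ∀ θ ∈ Icc (0 : ℝ) 1, ∀ s ∈ Icc (0 : ℝ) 1,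
      AffineMap.lineMap y (AffineMap.lineMap w w' θ : E) s ∉ Bad
  g3 : ∀ U : Set E, IsOpen U → U.Nonempty → ∃ᶠ y in G, y ∈ U

variable {K : L → Set E} {Bad : Set E} {R : E → L → L → Prop} {G : Filter E}

theorem Reach.symm (S : Stars K Bad R) {τ σ : L} (h : Reach Bad R τ σ) : Reach Bad R σ τ := by
  unfold Reach at h ⊢
  induction h with
  | refl => exact Relation.ReflTransGen.refl
  | tail _ h2 ih =>
    obtain ⟨f, hf, hR⟩ := h2
    exact Relation.ReflTransGen.head ⟨f, hf, S.symm _ _ _ hR⟩ ih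

theorem lineMap_mem {A : Set E} (hA : Convex ℝ A) {y w : E} (hy : y ∈ A) (hw : w ∈ A) :
    ∀ s ∈ Icc (0 : ℝ) 1, AffineMap.lineMap y w s ∈ A := fun _ hs =>
  hA.lineMap_mem hy hw hs

/-- COVERING of generic points -/
theorem cover_gen (S : Stars K Bad R) {y w : E} {τ : L} (hy : y ∈ K τ)
    (hb : ∀ s ∈ Icc (0 : ℝ) 1, AffineMap.lineMap y w s ∉ Bad) :
    ∃ σ, Reach Bad R τ σ ∧ w ∈ K σ := by
  obtain ⟨l, hl0, hl⟩ := exists_lift S hy hb
  have h0I : (0 : ℝ) ∈ Icc (0 : ℝ) 1 := ⟨le_rfl, zero_le_one⟩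
  have h1I : (1 : ℝ) ∈ Icc (0 : ℝ) 1 := ⟨zero_le_one, le_rfl⟩
  refine ⟨l 1, ?_, ?_⟩
  · refine (iff_of_loc (isPreconnected_Icc (a := (0 : ℝ)) (b := 1))
      (fun s => Reach Bad R τ (l s)) ?_ h0I h1I).1 ?_
    · intro s₀ hs₀
      filter_upwards [hl.2 s₀ hs₀] with s e1
      constructor
      · intro e2
        exact Relation.ReflTransGen.tail e2 ⟨_, hb s₀ hs₀, S.symm _ _ _ e1⟩
      · intro e2
        exact Relation.ReflTransGen.tail e2 ⟨_, hb s₀ hs₀, e1⟩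
    · rw [hl0]
      exact Relation.ReflTransGen.refl
  · have h1 := hl.1 1 h1I
    rw [AffineMap.lineMap_apply_one] at h1
    exact h1

/-- transport of end labels from `w₁` (label `τ₁`) to `w₂` (label `τ₂`) seen from `y` -/
def Trans (K : L → Set E) (R : E → L → L → Prop) (y w₁ : E) (τ₁ : L) (w₂ : E) (τ₂ : L) : Prop :=
  ∀ τ, y ∈ K τ → ∀ l : ℝ → L, l 0 = τ → IsLift K R (AffineMap.lineMap y w₁) l (Icc 0 1) →
    R w₁ τ₁ (l 1) → ∀ l' : ℝ → L, l' 0 = τ → IsLift K R (AffineMap.lineMap y w₂) l' (Icc 0 1) →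
    R w₂ τ₂ (l' 1)

/-- one step: a lift `μ` along `[w₁, w₂]` -/
theorem trans_step (S : Stars K Bad R) (hG : Gen Bad G) {w₁ w₂ : E} {μ : ℝ → L}
    (hb : ∀ s ∈ Icc (0 : ℝ) 1, AffineMap.lineMap w₁ w₂ s ∉ Bad)
    (hμ : IsLift K R (AffineMap.lineMap w₁ w₂) μ (Icc 0 1)) :
    ∀ᶠ y in G, Trans K R y w₁ (μ 0) w₂ (μ 1) := by
  filter_upwards [hG.g2 w₁ w₂ hb] with y hy
  intro τ hyτ l hl0 hl hR l' hl'0 hl'
  exact triangle S hyτ hy hμ hl0 hl hl'0 hl' hR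

theorem trans_comp (S : Stars K Bad R) {y w₁ w₂ w₃ : E} {τ₁ τ₂ τ₃ : L}
    (hb : ∀ s ∈ Icc (0 : ℝ) 1, AffineMap.lineMap y w₂ s ∉ Bad)
    (h1 : Trans K R y w₁ τ₁ w₂ τ₂) (h2 : Trans K R y w₂ τ₂ w₃ τ₃) :
    Trans K R y w₁ τ₁ w₃ τ₃ := by
  intro τ hy l hl0 hl hR l' hl'0 hl'
  obtain ⟨m, hm0, hm⟩ := exists_lift S hy hb
  exact h2 τ hy m hm0 hm (h1 τ hy l hl0 hl hR m hm0 hm) l' hl'0 hl'

theorem lineMap_symm_notMem {y w : E} (h : ∀ s ∈ Icc (0 : ℝ) 1, AffineMap.lineMap w y s ∉ Bad) :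
    ∀ s ∈ Icc (0 : ℝ) 1, AffineMap.lineMap y w s ∉ Bad := by
  intro s hs
  have h1 := h (1 - s) ⟨by linarith [hs.2], by linarith [hs.1]⟩
  rwa [AffineMap.lineMap_apply_one_sub] at h1

/-- a generic point of an open set, with a good segment from `w` -/
theorem exists_good (hG : Gen Bad G) {w : E} (hw : w ∉ Bad) {U : Set E} (hU : IsOpen U)
    (hne : U.Nonempty) : ∃ w' ∈ U, w' ∉ Bad ∧
      ∀ s ∈ Icc (0 : ℝ) 1, AffineMap.lineMap w w' s ∉ Bad := by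
  obtain ⟨w', h1, h2, h3⟩ := ((hG.g3 U hU hne).and_eventually (hG.g0.and (hG.g1 w hw))).exists
  exact ⟨w', h1, h2, h3⟩

/-- transport along a chain of labels -/
theorem trans_reach (S : Stars K Bad R) (hG : Gen Bad G)
    (hint : ∀ τ, (interior (K τ)).Nonempty) {τ σ : L} (h : Reach Bad R τ σ) :
    ∃ w₁ ∈ interior (K τ), ∃ w₂ ∈ interior (K σ), w₁ ∉ Bad ∧ w₂ ∉ Bad ∧
      ∀ᶠ y in G, Trans K R y w₁ τ w₂ σ := by
  unfold Reach at h
  induction h with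
  | refl =>
    obtain ⟨w, h1, h2⟩ := ((hG.g3 _ isOpen_interior (hint τ)).and_eventually hG.g0).exists
    refine ⟨w, h1, w, h1, h2, h2, ?_⟩
    filter_upwards [hG.g1 w h2] with y hy
    intro υ hyυ l hl0 hl hR l' hl'0 hl'
    have hb := lineMap_symm_notMem hy
    have h3 : R (AffineMap.lineMap y w (1 : ℝ)) (l 1) (l' 1) := by
      refine lift_unique S (c := fun s => AffineMap.lineMap y w s) (I := Icc 0 1)
        isPreconnected_Icc AffineMap.lineMap_continuous.continuousOn hb hl hl'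
        (⟨le_rfl, zero_le_one⟩ : (0 : ℝ) ∈ Icc (0 : ℝ) 1)
        (⟨zero_le_one, le_rfl⟩ : (1 : ℝ) ∈ Icc (0 : ℝ) 1) ?_
      have : AffineMap.lineMap y w (0 : ℝ) = y := AffineMap.lineMap_apply_zero _ _
      rw [this, hl0, hl'0]
      exact S.refl _ _ hyυ
    rw [AffineMap.lineMap_apply_one] at h3
    exact S.trans _ _ _ _ hR h3
  | @tail σ' υ _ h2 ih =>
    obtain ⟨w₁, hw₁, w₂, hw₂, hb₁, hb₂, hT⟩ := ih
    obtain ⟨f, hf, hR⟩ := h2
    have hfσ : f ∈ K σ' := S.mem _ _ _ (S.symm _ _ _ hR)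
    have hfυ : f ∈ K υ := S.mem _ _ _ hR
    obtain ⟨ρ, hρ, -, hloc⟩ := S.loc f σ' hf hfσ
    have hopen : ∀ κ, f ∈ K κ → (interior (K κ) ∩ ball f ρ).Nonempty := by
      intro κ hκ
      have h3 : f ∈ closure (interior (K κ)) := by
        rw [(S.convex κ).closure_interior_eq_closure_of_nonempty_interior (hint κ)]
        exact subset_closure hκ
      obtain ⟨z, hz1, hz2⟩ := mem_closure_iff.1 h3 (ball f ρ) isOpen_ball (mem_ball_self hρ)
      exact ⟨z, hz2, hz1⟩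
    obtain ⟨w₃, hw₃, hb₃, hs₃⟩ := exists_good hG hb₂ (isOpen_interior.inter isOpen_ball)
      (hopen σ' hfσ)
    obtain ⟨w₄, hw₄, hb₄, hs₄⟩ := exists_good hG hb₃ (isOpen_interior.inter isOpen_ball)
      (hopen υ hfυ)
    have hμ₃ : IsLift K R (AffineMap.lineMap w₂ w₃) (fun _ => σ') (Icc 0 1) :=
      lift_const S (lineMap_mem (S.convex σ') (interior_subset hw₂) (interior_subset hw₃.1))
    obtain ⟨μ, hμ0, hμ⟩ := exists_lift S (interior_subset hw₃.1) hs₄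
    have hin : ∀ s ∈ Icc (0 : ℝ) 1, AffineMap.lineMap w₃ w₄ s ∈ ball f ρ :=
      lineMap_mem (convex_ball f ρ) hw₃.2 hw₄.2
    have h0I : (0 : ℝ) ∈ Icc (0 : ℝ) 1 := ⟨le_rfl, zero_le_one⟩
    have h1I : (1 : ℝ) ∈ Icc (0 : ℝ) 1 := ⟨zero_le_one, le_rfl⟩
    have hend : R f σ' (μ 1) := by
      refine lift_loc S (c := fun s => AffineMap.lineMap w₃ w₄ s) (I := Icc 0 1)
        isPreconnected_Icc hs₄ hμ hloc (fun s hs => hin s hs) h0I h1I ?_
      rw [hμ0]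
      exact S.refl _ _ hfσ
    have hw₄μ : w₄ ∈ K (μ 1) := by
      have := hμ.1 1 h1I
      rw [AffineMap.lineMap_apply_one] at this
      exact this
    have hR₄ : R w₄ (μ 1) υ :=
      (hloc w₄ hb₄ hw₄.2 (μ 1) hend hw₄μ υ).2 ⟨hR, interior_subset hw₄.1⟩
    refine ⟨w₁, hw₁, w₄, hw₄.1, hb₁, hb₄, ?_⟩
    filter_upwards [hT, trans_step S hG hs₃ hμ₃, trans_step S hG hs₄ hμ, hG.g1 w₂ hb₂,
      hG.g1 w₃ hb₃] with y e1 e2 e3 e4 e5
    rw [hμ0] at e3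
    have e6 := trans_comp S (lineMap_symm_notMem e5)
      (trans_comp S (lineMap_symm_notMem e4) e1 e2) e3
    intro κ hκ l hl0 hl hRl l' hl'0 hl'
    exact S.trans _ _ _ _ (S.symm _ _ _ hR₄) (e6 κ hκ l hl0 hl hRl l' hl'0 hl')

/-- NO OVERLAP -/
theorem no_overlap (S : Stars K Bad R) (hG : Gen Bad G)
    (hint : ∀ τ, (interior (K τ)).Nonempty)
    (hone : ∀ p τ σ, p ∉ Bad → p ∈ interior (K τ) → R p τ σ → σ = τ)
    {τ σ : L} (h : Reach Bad R τ σ) (hne : (interior (K τ) ∩ interior (K σ)).Nonempty) :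
    τ = σ := by
  obtain ⟨w₁, hw₁, w₂, hw₂, hb₁, hb₂, hT⟩ := trans_reach S hG hint h
  obtain ⟨y, ⟨hyτ, hyσ⟩, hyT, hyb, hy₁, hy₂⟩ :=
    ((hG.g3 _ (isOpen_interior.inter isOpen_interior) hne).and_eventually
      (hT.and (hG.g0.and ((hG.g1 w₁ hb₁).and (hG.g1 w₂ hb₂))))).exists
  have hyKτ := interior_subset hyτ
  have hyKσ := interior_subset hyσ
  have hc₁ : IsLift K R (AffineMap.lineMap y w₁) (fun _ => τ) (Icc 0 1) :=
    lift_const S (lineMap_mem (S.convex τ) hyKτ (interior_subset hw₁))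
  have hc₂ : IsLift K R (AffineMap.lineMap y w₂) (fun _ => σ) (Icc 0 1) :=
    lift_const S (lineMap_mem (S.convex σ) hyKσ (interior_subset hw₂))
  have hbl := lineMap_symm_notMem hy₂
  obtain ⟨l, hl0, hl⟩ := exists_lift S hyKτ hbl
  have h1 := hyT τ hyKτ (fun _ => τ) rfl hc₁ (S.refl _ _ (interior_subset hw₁)) l hl0 hl
  have h2 : R (AffineMap.lineMap y w₂ (0 : ℝ)) (l 0) σ := by
    refine lift_unique S (c := fun s => AffineMap.lineMap y w₂ s) (l' := fun _ => σ) (I := Icc 0 1)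
      isPreconnected_Icc AffineMap.lineMap_continuous.continuousOn hbl hl hc₂
      (⟨zero_le_one, le_rfl⟩ : (1 : ℝ) ∈ Icc (0 : ℝ) 1)
      (⟨le_rfl, zero_le_one⟩ : (0 : ℝ) ∈ Icc (0 : ℝ) 1) ?_
    have : AffineMap.lineMap y w₂ (1 : ℝ) = w₂ := AffineMap.lineMap_apply_one _ _
    rw [this]
    exact S.symm _ _ _ h1
  rw [hl0, AffineMap.lineMap_apply_zero] at h2
  exact (hone y τ σ hyb hyτ h2).symm

/-- COVERING of a dense set -/
theorem cover_dense (S : Stars K Bad R) (hG : Gen Bad G) {τ : L} (hint : (interior (K τ)).Nonempty) :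
    Dense (⋃ σ ∈ {σ | Reach Bad R τ σ}, K σ) := by
  obtain ⟨y, hy, hyb⟩ := ((hG.g3 _ isOpen_interior hint).and_eventually hG.g0).exists
  rw [dense_iff_inter_open]
  intro U hU hne
  obtain ⟨w, hw, -, hs⟩ := exists_good hG hyb hU hne
  obtain ⟨σ, h1, h2⟩ := cover_gen S (interior_subset hy) hs
  refine ⟨w, hw, ?_⟩
  simp only [mem_iUnion]
  exact ⟨σ, h1, h2⟩

end Pool.FF65
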