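import Pool.Agent.FF65.Abs

set_option autoImplicit false

/-!
# FF65/Exi: existence of lifts of segments
-/

open Set Filter Topology Metric

namespace Pool.FF65

variable {E L : Type*} [NormedAddCommGroup E] [NormedSpace ℝ E]
variable {K : L → Set E} {Bad : Set E} {R : E → L → L → Prop}

/-- labels may be changed inside the stars -/
theorem lift_congr (S : Stars K Bad R) {c : ℝ → E} {l l' : ℝ → L} {I : Set ℝ}
    (hc : ContinuousOn c I) (hb : ∀ s ∈ I, c s ∉ Bad)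
    (h : IsLift K R c l I) (h' : ∀ s ∈ I, R (c s) (l s) (l' s)) : IsLift K R c l' I := by
  refine ⟨fun s hs => S.mem _ _ _ (h' s hs), fun s₀ hs₀ => ?_⟩
  obtain ⟨ρ, hρ, -, hloc⟩ := S.loc (c s₀) (l s₀) (hb s₀ hs₀) (h.1 s₀ hs₀)
  have h1 : ∀ᶠ s in 𝓝[I] s₀, dist (c s) (c s₀) < ρ := (hc s₀ hs₀).eventually (ball_mem_nhds _ hρ)
  filter_upwards [h1, h.2 s₀ hs₀, self_mem_nhdsWithin] with s e1 e2 e4
  have key := (hloc (c s) (hb s e4) e1 (l s) e2 (h.1 s e4) (l' s)).1 (h' s e4)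
  exact S.trans _ _ _ _ (S.symm _ _ _ (h' s₀ hs₀)) key.1

theorem isLift_of_nhds {c : ℝ → E} {l : ℝ → L} {I : Set ℝ}
    (h : ∀ s₀ ∈ I, ∃ J : Set ℝ, s₀ ∈ J ∧ J ∈ 𝓝[I] s₀ ∧ IsLift K R c l J) : IsLift K R c l I := by
  refine ⟨fun s hs => ?_, fun s₀ hs₀ => ?_⟩
  · obtain ⟨J, h1, -, h3⟩ := h s hs
    exact h3.1 s h1
  · obtain ⟨J, h1, h2, h3⟩ := h s₀ hs₀
    have h4 := h3.2 s₀ h1
    rw [eventually_nhdsWithin_iff] at h4
    filter_upwards [h2, mem_nhdsWithin_of_mem_nhds h4] with s hs hs'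
    exact hs' hs

/-- the diagonal lift -/
theorem lift_diag (S : Stars K Bad R) {c : ℝ → E} {τ₀ : L} {b : ℝ}
    (hc : Continuous c) (hb : ∀ s ∈ Ico 0 b, c s ∉ Bad) (h0 : c 0 ∈ K τ₀)
    (h : ∀ t ∈ Ico 0 b, ∃ l : ℝ → L, l 0 = τ₀ ∧ IsLift K R c l (Icc 0 t)) :
    ∃ l : ℝ → L, (0 < b → l 0 = τ₀) ∧ IsLift K R c l (Ico 0 b) := by
  classical
  have hne : Nonempty L := ⟨τ₀⟩
  choose! G hG0 hG using h
  refine ⟨fun t => G t t, fun hb0 => hG0 0 ⟨le_refl _, hb0⟩, isLift_of_nhds ?_⟩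
  intro t₀ ht₀
  obtain ⟨t₁, h1, h2⟩ := exists_between ht₀.2
  have ht₁ : t₁ ∈ Ico 0 b := ⟨ht₀.1.trans h1.le, h2⟩
  refine ⟨Icc 0 t₁, ⟨ht₀.1, h1.le⟩, ?_, ?_⟩
  · filter_upwards [self_mem_nhdsWithin, mem_nhdsWithin_of_mem_nhds (Iio_mem_nhds h1)] with t e1 e2
    exact ⟨e1.1, le_of_lt e2⟩
  · refine lift_congr S hc.continuousOn
      (fun s hs => hb s ⟨hs.1, hs.2.trans_lt h2⟩) (hG t₁ ht₁) fun t ht => ?_
    have htb : t ∈ Ico 0 b := ⟨ht.1, ht.2.trans_lt h2⟩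
    have hsub : Icc 0 t ⊆ Icc 0 t₁ := Icc_subset_Icc le_rfl ht.2
    refine lift_unique S (isPreconnected_Icc (a := 0) (b := t)) hc.continuousOn
      (fun s hs => hb s ⟨hs.1, hs.2.trans_lt htb.2⟩) ((hG t₁ ht₁).mono hsub) (hG t htb)
      (left_mem_Icc.2 ht.1) (right_mem_Icc.2 ht.1) ?_
    rw [hG0 t₁ ht₁, hG0 t htb]
    exact S.refl _ _ h0

/-- LIMIT STEP -/
theorem lift_lim (S : Stars K Bad R) {y w : E} {b : ℝ} {l : ℝ → L} (hb0 : 0 < b)
    (hb : ∀ s ∈ Ico 0 b, AffineMap.lineMap y w s ∉ Bad)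
    (hl : IsLift K R (AffineMap.lineMap y w) l (Ico 0 b)) :
    ∃ l' : ℝ → L, R y (l 0) (l' 0) ∧ IsLift K R (AffineMap.lineMap y w) l' (Icc 0 b) := by
  classical
  set c : ℝ → E := fun s => AffineMap.lineMap y w s with hcdef
  have hc : Continuous c := AffineMap.lineMap_continuous
  have hconv : ∀ σ a d s, c a ∈ K σ → c d ∈ K σ → s ∈ Icc a d → c s ∈ K σ := by
    intro σ a d s ha hd hs
    exact ((S.convex σ).affine_preimage (AffineMap.lineMap (k := ℝ) y w)).ordConnected.out ha hd hs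
  -- a sequence
  have hsn : ∀ n : ℕ, b * (1 - 1 / ((n : ℝ) + 1)) ∈ Ico 0 b := by
    intro n
    have h1 : (0 : ℝ) < 1 / ((n : ℝ) + 1) := by positivity
    have h2 : 1 / ((n : ℝ) + 1) ≤ 1 := by
      rw [div_le_one (by positivity)]
      have := Nat.cast_nonneg (α := ℝ) n
      linarith
    constructor
    · exact mul_nonneg hb0.le (by linarith)
    · nlinarith
  have hst : Tendsto (fun n : ℕ => b * (1 - 1 / ((n : ℝ) + 1))) atTop (𝓝 b) := by
    have h1 := (tendsto_one_div_add_atTop_nhds_zero_nat (𝕜 := ℝ)).const_sub 1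
    have h2 := h1.const_mul b
    simpa using h2
  obtain ⟨δ, hδ, hfr⟩ := S.lim (c b) (fun n : ℕ => c (b * (1 - 1 / ((n : ℝ) + 1))))
    (fun n => l (b * (1 - 1 / ((n : ℝ) + 1)))) (fun n => hl.1 _ (hsn n))
    ((hc.tendsto b).comp hst)
  have hnear : ∀ᶠ t in 𝓝 b, dist (c t) (c b) < δ := (hc.tendsto b).eventually (ball_mem_nhds _ hδ)
  obtain ⟨η, hη, hη'⟩ := Metric.eventually_nhds_iff.1 hnear
  have hev : ∀ᶠ n : ℕ in atTop, b - η < b * (1 - 1 / ((n : ℝ) + 1)) :=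
    hst.eventually (lt_mem_nhds (by linarith))
  obtain ⟨n, ⟨B, hBf, hBn, hBc⟩, hn⟩ := (hfr.and_eventually hev).exists
  set s₁ := b * (1 - 1 / ((n : ℝ) + 1)) with hs₁
  have hs₁m : s₁ ∈ Ico 0 b := hsn n
  have hdist : ∀ t ∈ Ico s₁ b, dist (c t) (c b) < δ := by
    intro t ht
    apply hη'
    rw [Real.dist_eq, abs_lt]
    constructor
    · linarith [ht.1]
    · linarith [ht.2]
  have hsub : Ico s₁ b ⊆ Ico 0 b := Ico_subset_Ico hs₁m.1 le_rfl
  have hlB : ∀ t ∈ Ico s₁ b, l t ∈ B := by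
    intro t ht
    refine (iff_of_loc (isPreconnected_Ico (a := s₁) (b := b)) (fun s => l s ∈ B) ?_
      (left_mem_Ico.2 hs₁m.2) ht).1 hBn
    intro s₀ hs₀
    have h2 := (hl.mono hsub).2 s₀ hs₀
    filter_upwards [h2] with s e2
    constructor
    · intro e3
      exact hBc _ e3 (c s₀) (hdist s₀ hs₀) _ (S.symm _ _ _ e2)
    · intro e3
      exact hBc _ e3 (c s₀) (hdist s₀ hs₀) _ e2
  -- pigeonhole
  have hpig : ∃ σ ∈ B, ∃ᶠ t in 𝓝[<] b, l t = σ := by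
    by_contra hcon
    push Not at hcon
    have h1 : ∀ σ ∈ B, ∀ᶠ t in 𝓝[<] b, ¬ l t = σ := fun σ hσ => by
      have := hcon σ hσ
      exact this
    have h2 := (hBf.eventually_all).2 h1
    have h3 : ∀ᶠ t in 𝓝[<] b, t ∈ Ico s₁ b := Ico_mem_nhdsLT hs₁m.2
    obtain ⟨t, e1, e2⟩ := (h2.and h3).exists
    exact e1 (l t) (hlB t e2) rfl
  obtain ⟨σ, hσB, hσ⟩ := hpig
  have hev3 : ∀ᶠ t in 𝓝[<] b, t ∈ Ico s₁ b := Ico_mem_nhdsLT hs₁m.2
  have hbσ : c b ∈ K σ := by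
    refine (S.closed σ).mem_of_frequently_of_tendsto (b := 𝓝[<] b) (f := c) ?_
      ((hc.tendsto b).mono_left nhdsWithin_le_nhds)
    exact (hσ.and_eventually hev3).mono fun t ht => by
      have := hl.1 t (hsub ht.2)
      rw [ht.1] at this
      exact this
  obtain ⟨s₂, hs₂σ, hs₂⟩ := (hσ.and_eventually hev3).exists
  have hs₂m : s₂ ∈ Ico 0 b := hsub hs₂
  have hcK : ∀ t ∈ Ico s₂ b, c t ∈ K σ := by
    intro t ht
    refine hconv σ s₂ b t ?_ hbσ ⟨ht.1, ht.2.le⟩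
    have := hl.1 s₂ hs₂m
    rw [hs₂σ] at this
    exact this
  have hR : ∀ t ∈ Ico s₂ b, R (c t) (l t) σ := by
    intro t ht
    have hsub2 : Ico s₂ b ⊆ Ico 0 b := Ico_subset_Ico hs₂m.1 le_rfl
    refine lift_unique S (isPreconnected_Ico (a := s₂) (b := b)) hc.continuousOn
      (fun s hs => hb s (hsub2 hs)) (hl.mono hsub2) (lift_const S hcK)
      (left_mem_Ico.2 hs₂m.2) ht ?_
    rw [hs₂σ]
    exact S.refl _ _ (hcK s₂ (left_mem_Ico.2 hs₂m.2))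
  set l' : ℝ → L := fun t => if t < s₂ then l t else σ with hl'
  have hl'R : ∀ t ∈ Ico 0 b, R (c t) (l t) (l' t) := by
    intro t ht
    by_cases h : t < s₂
    · have : l' t = l t := if_pos h
      rw [this]
      exact S.refl _ _ (hl.1 t ht)
    · have : l' t = σ := if_neg h
      rw [this]
      exact hR t ⟨not_lt.1 h, ht.2⟩
  have hlift : IsLift K R c l' (Ico 0 b) := lift_congr S hc.continuousOn hb hl hl'R
  have hl'b : l' b = σ := if_neg (not_lt.2 hs₂m.2.le)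
  refine ⟨l', ?_, ?_, ?_⟩
  · have h1 := hl'R 0 ⟨le_rfl, hb0⟩
    have h2 : c 0 = y := AffineMap.lineMap_apply_zero y w
    rw [h2] at h1
    exact h1
  · intro s hs
    rcases hs.2.lt_or_eq with h | h
    · exact hlift.1 s ⟨hs.1, h⟩
    · rw [h, hl'b]
      exact hbσ
  · intro s₀ hs₀
    rcases hs₀.2.lt_or_eq with h | h
    · have h1 := hlift.2 s₀ ⟨hs₀.1, h⟩
      rw [eventually_nhdsWithin_iff] at h1 ⊢
      filter_upwards [h1, Iio_mem_nhds h] with s e1 e2 e3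
      exact e1 ⟨e3.1, e2⟩
    · rw [h, hl'b, eventually_nhdsWithin_iff]
      filter_upwards [Ioi_mem_nhds hs₂m.2] with s e1 e2
      have : l' s = σ := if_neg (not_lt.2 (le_of_lt e1))
      rw [this]
      exact S.refl _ _ hbσ

/-- EXTENSION -/
theorem lift_ext (S : Stars K Bad R) {c : ℝ → E} {a : ℝ} {l : ℝ → L} (hc : Continuous c)
    (ha0 : 0 ≤ a) (ha1 : a < 1) (hb : ∀ s ∈ Icc (0 : ℝ) 1, c s ∉ Bad)
    (hl : IsLift K R c l (Icc 0 a)) :
    ∃ η > 0, ∃ l' : ℝ → L, (∀ t ≤ a, l' t = l t) ∧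
      ∀ d, d < a + η → d ≤ 1 → IsLift K R c l' (Icc 0 d) := by
  classical
  have haI : a ∈ Icc (0 : ℝ) a := ⟨ha0, le_rfl⟩
  obtain ⟨ρ, hρ, hcov, hloc⟩ := S.loc (c a) (l a) (hb a ⟨ha0, ha1.le⟩) (hl.1 a haI)
  have hnear : ∀ᶠ t in 𝓝 a, dist (c t) (c a) < ρ := (hc.tendsto a).eventually (ball_mem_nhds _ hρ)
  obtain ⟨η, hη, hη'⟩ := Metric.eventually_nhds_iff.1 hnear
  have hne : Nonempty L := ⟨l a⟩
  have hcov' : ∀ t, dist t a < η → ∃ σ, R (c a) (l a) σ ∧ c t ∈ K σ := fun t ht => hcov _ (hη' ht)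
  choose! G hG using hcov'
  refine ⟨η, hη, fun t => if t ≤ a then l t else G t, fun t ht => if_pos ht, ?_⟩
  intro d hd hd1
  set l' : ℝ → L := fun t => if t ≤ a then l t else G t with hl'
  have hle : ∀ t ≤ a, l' t = l t := fun t ht => if_pos ht
  have hgt : ∀ t, a < t → l' t = G t := fun t ht => if_neg (not_le.2 ht)
  have hdist : ∀ t, a < t → t ≤ d → dist t a < η := by
    intro t h1 h2
    rw [Real.dist_eq, abs_lt]
    constructor <;> linarith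
  refine ⟨?_, ?_⟩
  · intro s hs
    by_cases h : s ≤ a
    · rw [hle s h]
      exact hl.1 s ⟨hs.1, h⟩
    · push Not at h
      rw [hgt s h]
      exact (hG s (hdist s h hs.2)).2
  · intro s₀ hs₀
    rcases lt_trichotomy s₀ a with h | h | h
    · have h1 := hl.2 s₀ ⟨hs₀.1, h.le⟩
      rw [eventually_nhdsWithin_iff] at h1 ⊢
      filter_upwards [h1, Iio_mem_nhds h] with s e1 e2 e3
      rw [hle s₀ h.le, hle s (le_of_lt e2)]
      exact e1 ⟨e3.1, le_of_lt e2⟩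
    · subst h
      have h1 := hl.2 s₀ haI
      rw [eventually_nhdsWithin_iff] at h1 ⊢
      filter_upwards [h1] with s e1 e3
      rw [hle s₀ le_rfl]
      by_cases hs : s ≤ s₀
      · rw [hle s hs]
        exact e1 ⟨e3.1, hs⟩
      · push Not at hs
        rw [hgt s hs]
        exact (hG s (hdist s hs e3.2)).1
    · rw [hgt s₀ h]
      have hq := hG s₀ (hdist s₀ h hs₀.2)
      obtain ⟨η', hη'0, hst⟩ := star_near S (hb a ⟨ha0, ha1.le⟩) (hl.1 a haI) (c s₀)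
      have hnear2 : ∀ᶠ t in 𝓝 s₀, dist (c t) (c s₀) < η' :=
        (hc.tendsto s₀).eventually (ball_mem_nhds _ hη'0)
      rw [eventually_nhdsWithin_iff]
      filter_upwards [hnear2, Ioi_mem_nhds h] with s e1 e2 e3
      rw [hgt s e2]
      have hs := hG s (hdist s e2 e3.2)
      exact (hloc (c s₀) (hb s₀ ⟨hs₀.1, hs₀.2.trans hd1⟩) (hη' (hdist s₀ h hs₀.2)) (G s₀) hq.1
        hq.2 (G s)).2 ⟨hs.1, hst (c s) e1 _ hs.1 hs.2⟩

/-- EXISTENCE of lifts of segments off the bad set -/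
theorem exists_lift (S : Stars K Bad R) {y w : E} {τ₀ : L} (hy : y ∈ K τ₀)
    (hb : ∀ s ∈ Icc (0 : ℝ) 1, AffineMap.lineMap y w s ∉ Bad) :
    ∃ l : ℝ → L, l 0 = τ₀ ∧ IsLift K R (AffineMap.lineMap y w) l (Icc 0 1) := by
  classical
  set c : ℝ → E := fun s => AffineMap.lineMap y w s with hcdef
  have hc : Continuous c := AffineMap.lineMap_continuous
  have hc0 : c 0 = y := AffineMap.lineMap_apply_zero y w
  let T : Set ℝ := {s | ∃ l : ℝ → L, R y τ₀ (l 0) ∧ IsLift K R c l (Icc 0 s)}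
  -- the start may be normalised
  have hnorm : ∀ s ∈ Icc (0 : ℝ) 1, s ∈ T → ∃ l : ℝ → L, l 0 = τ₀ ∧ IsLift K R c l (Icc 0 s) := by
    rintro s hs ⟨l, h1, h2⟩
    refine ⟨fun t => if t = 0 then τ₀ else l t, if_pos rfl, ?_⟩
    refine lift_congr S hc.continuousOn (fun t ht => hb t ⟨ht.1, ht.2.trans hs.2⟩) h2 ?_
    intro t ht
    by_cases h : t = 0
    · subst h
      rw [if_pos rfl, hc0]
      exact S.symm _ _ _ h1
    · rw [if_neg h]
      exact S.refl _ _ (h2.1 t ht)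
  have hmono : ∀ s t, t ≤ s → s ∈ T → t ∈ T := by
    rintro s t hts ⟨l, h1, h2⟩
    exact ⟨l, h1, h2.mono (Icc_subset_Icc le_rfl hts)⟩
  have h0T : (0 : ℝ) ∈ T := by
    refine ⟨fun _ => τ₀, S.refl _ _ hy, lift_const S ?_⟩
    intro s hs
    have : s = 0 := le_antisymm hs.2 hs.1
    rw [this, hc0]
    exact hy
  have hlimT : ∀ s ∈ Icc (0 : ℝ) 1, 0 < s → (∀ t < s, t ∈ T) → s ∈ T := by
    intro s hs hs0 ht
    obtain ⟨l, h1, h2⟩ := lift_diag S (b := s) (τ₀ := τ₀) hc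
      (fun t ht => hb t ⟨ht.1, ht.2.le.trans hs.2⟩) (by rw [hc0]; exact hy)
      (fun t ht' => hnorm t ⟨ht'.1, ht'.2.le.trans hs.2⟩ (ht t ht'.2))
    obtain ⟨l', h3, h4⟩ := lift_lim S hs0 (fun t ht => hb t ⟨ht.1, ht.2.le.trans hs.2⟩) h2
    rw [h1 hs0] at h3
    exact ⟨l', h3, h4⟩
  have hsub : Icc (0 : ℝ) 1 ⊆ T := by
    refine IsClosed.Icc_subset_of_forall_exists_gt ?_ h0T ?_
    · rw [← isSeqClosed_iff_isClosed]
      intro x s hx hxs
      have hsI : s ∈ Icc (0 : ℝ) 1 := isClosed_Icc.mem_of_tendsto hxs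
        (Eventually.of_forall fun n => (hx n).2)
      refine ⟨?_, hsI⟩
      rcases hsI.1.lt_or_eq with h | h
      · refine hlimT s hsI h fun t ht => ?_
        obtain ⟨n, hn⟩ := (hxs.eventually (lt_mem_nhds ht)).exists
        exact hmono _ _ (le_of_lt hn) (hx n).1
      · rw [← h]
        exact h0T
    · rintro a ⟨haT, ha0, ha1⟩ z hz
      obtain ⟨l, h1, h2⟩ := haT
      obtain ⟨η, hη, l', h3, h4⟩ := lift_ext S hc ha0 ha1 hb h2
      refine ⟨min z (min (a + η / 2) 1), ⟨l', ?_, h4 _ ?_ ?_⟩, ?_, min_le_left _ _⟩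
      · rw [h3 0 ha0]
        exact h1
      · exact (min_le_right _ _).trans_lt ((min_le_left _ _).trans_lt (by linarith))
      · exact (min_le_right _ _).trans (min_le_right _ _)
      · exact lt_min hz (lt_min (by linarith) ha1)
  exact hnorm 1 ⟨zero_le_one, le_rfl⟩ (hsub ⟨zero_le_one, le_rfl⟩)

end Pool.FF65
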