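import Pool.Agent.FF65.Exi

set_option autoImplicit false

/-!
# FF65/Tri: stability of lifts and the triangle lemma
-/

open Set Filter Topology Metric

namespace Pool.FF65

variable {E L : Type*} [NormedAddCommGroup E] [NormedSpace ℝ E]
variable {K : L → Set E} {Bad : Set E} {R : E → L → L → Prop}

theorem dist_lineMap (y w w' : E) {s : ℝ} (h0 : 0 ≤ s) (h1 : s ≤ 1) :
    dist (AffineMap.lineMap y w' s) (AffineMap.lineMap y w s) ≤ dist w' w := by
  have e : AffineMap.lineMap y w' s - AffineMap.lineMap y w s = s • (w' - w) := by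
    rw [AffineMap.lineMap_apply_module', AffineMap.lineMap_apply_module', add_sub_add_right_eq_sub,
      ← smul_sub, sub_sub_sub_cancel_right]
  rw [dist_eq_norm, dist_eq_norm, e, norm_smul, Real.norm_of_nonneg h0]
  have := mul_le_mul_of_nonneg_right h1 (norm_nonneg (w' - w))
  linarith

/-- STABILITY of lifts in the end point -/
theorem lift_stable (S : Stars K Bad R) {y w : E} {τ₀ : L} {l : ℝ → L}
    (hb : ∀ s ∈ Icc (0 : ℝ) 1, AffineMap.lineMap y w s ∉ Bad)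
    (hl0 : l 0 = τ₀) (hl : IsLift K R (AffineMap.lineMap y w) l (Icc 0 1)) :
    ∀ s ∈ Icc (0 : ℝ) 1, ∃ ε > 0, ∀ w', dist w' w < ε →
      (∀ s ∈ Icc (0 : ℝ) 1, AffineMap.lineMap y w' s ∉ Bad) → ∀ l' : ℝ → L, l' 0 = τ₀ →
      IsLift K R (AffineMap.lineMap y w') l' (Icc 0 1) →
      R (AffineMap.lineMap y w s) (l s) (l' s) := by
  classical
  set c : ℝ → E := fun s => AffineMap.lineMap y w s with hcdef
  have hc : Continuous c := AffineMap.lineMap_continuous
  have hc0 : c 0 = y := AffineMap.lineMap_apply_zero y w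
  have h0I : (0 : ℝ) ∈ Icc (0 : ℝ) 1 := ⟨le_rfl, zero_le_one⟩
  have hyK : y ∈ K τ₀ := by
    have := hl.1 0 h0I
    rw [hl0] at this
    rw [← hc0]
    exact this
  intro s hs
  refine (iff_of_loc (isPreconnected_Icc (a := (0 : ℝ)) (b := 1))
    (fun s => ∃ ε > 0, ∀ w', dist w' w < ε →
      (∀ s ∈ Icc (0 : ℝ) 1, AffineMap.lineMap y w' s ∉ Bad) → ∀ l' : ℝ → L, l' 0 = τ₀ →
      IsLift K R (AffineMap.lineMap y w') l' (Icc 0 1) → R (c s) (l s) (l' s)) ?_ h0I hs).1 ?_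
  · intro s₀ hs₀
    obtain ⟨ρ, hρ, -, hloc⟩ := S.loc (c s₀) (l s₀) (hb s₀ hs₀) (hl.1 s₀ hs₀)
    have hnear : ∀ᶠ t in 𝓝 s₀, dist (c t) (c s₀) < ρ / 2 :=
      (hc.tendsto s₀).eventually (ball_mem_nhds _ (by linarith))
    obtain ⟨η, hη, hη'⟩ := Metric.eventually_nhds_iff.1 hnear
    have hl1 := hl.2 s₀ hs₀
    have hball : ∀ᶠ t in 𝓝[Icc 0 1] s₀, dist t s₀ < η :=
      mem_nhdsWithin_of_mem_nhds (ball_mem_nhds _ hη)
    filter_upwards [hl1, hball, self_mem_nhdsWithin] with s e1 e2 e3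
    have huI : uIcc s₀ s ⊆ Icc (0 : ℝ) 1 := by
      intro t ht
      rw [mem_uIcc] at ht
      rcases ht with ht | ht
      · exact ⟨hs₀.1.trans ht.1, ht.2.trans e3.2⟩
      · exact ⟨e3.1.trans ht.1, ht.2.trans hs₀.2⟩
    have hud : ∀ t ∈ uIcc s₀ s, dist t s₀ < η := by
      intro t ht
      rw [Real.dist_eq, abs_lt] at e2 ⊢
      rw [mem_uIcc] at ht
      rcases ht with ht | ht
      · constructor <;> linarith [ht.1, ht.2, e2.1, e2.2]
      · constructor <;> linarith [ht.1, ht.2, e2.1, e2.2]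
    -- the local lemma for the perturbed path
    have key : ∀ w', dist w' w < ρ / 2 →
        (∀ s ∈ Icc (0 : ℝ) 1, AffineMap.lineMap y w' s ∉ Bad) → ∀ l' : ℝ → L,
        IsLift K R (AffineMap.lineMap y w') l' (Icc 0 1) →
        ∀ a ∈ uIcc s₀ s, ∀ b ∈ uIcc s₀ s, R (c s₀) (l s₀) (l' a) → R (c s₀) (l s₀) (l' b) := by
      intro w' hw' hb' l' hl' a ha b hb1 hab
      refine lift_loc S (c := fun t => AffineMap.lineMap y w' t) (I := uIcc s₀ s)
        isPreconnected_uIcc (fun t ht => hb' t (huI ht)) (hl'.mono huI) hloc ?_ ha hb1 hab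
      intro t ht
      have h1 := dist_lineMap y w w' (huI ht).1 (huI ht).2
      have h2 := hη' (hud t ht)
      calc dist (AffineMap.lineMap y w' t) (c s₀)
          ≤ dist (AffineMap.lineMap y w' t) (c t) + dist (c t) (c s₀) := dist_triangle _ _ _
        _ < ρ := by
          have h3 : dist (AffineMap.lineMap y w' t) (c t) ≤ dist w' w := h1
          linarith
    have hds : dist (c s) (c s₀) < ρ := by
      have := hη' e2
      linarith
    constructor
    · rintro ⟨ε, hε, h⟩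
      refine ⟨min ε (ρ / 2), lt_min hε (by linarith), fun w' hw' hb' l' hl'0 hl' => ?_⟩
      have h1 := h w' (hw'.trans_le (min_le_left _ _)) hb' l' hl'0 hl'
      have h2 : R (c s₀) (l s₀) (l' s) :=
        ((hloc (c s) (hb s e3) hds (l s) e1 (hl.1 s e3) (l' s)).1 h1).1
      exact key w' (hw'.trans_le (min_le_right _ _)) hb' l' hl' s right_mem_uIcc s₀
        left_mem_uIcc h2
    · rintro ⟨ε, hε, h⟩
      obtain ⟨η', hη'0, hst⟩ := star_near S (hb s₀ hs₀) (hl.1 s₀ hs₀) (c s)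
      refine ⟨min (min ε (ρ / 2)) η', lt_min (lt_min hε (by linarith)) hη'0,
        fun w' hw' hb' l' hl'0 hl' => ?_⟩
      have hw1 := (hw'.trans_le (min_le_left _ _)).trans_le (min_le_left _ _)
      have hw2 := (hw'.trans_le (min_le_left _ _)).trans_le (min_le_right _ _)
      have hw3 := hw'.trans_le (min_le_right _ _)
      have h1 := h w' hw1 hb' l' hl'0 hl'
      have h2 := key w' hw2 hb' l' hl' s₀ left_mem_uIcc s right_mem_uIcc h1
      have h3 : c s ∈ K (l' s) := hst (AffineMap.lineMap y w' s)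
        ((dist_lineMap y w w' e3.1 e3.2).trans_lt hw3) _ h2 (hl'.1 s e3)
      exact (hloc (c s) (hb s e3) hds (l s) e1 (hl.1 s e3) (l' s)).2 ⟨h2, h3⟩
  · refine ⟨1, one_pos, fun w' _ _ l' hl'0 _ => ?_⟩
    rw [hl0, hl'0, hc0]
    exact S.refl _ _ hyK

/-- TRIANGLE LEMMA: `μ` a lift along `[w, w']`; the triangle `y, w, w'` has no bad point -/
theorem triangle (S : Stars K Bad R) {y w w' : E} {τ₀ : L} {l l' μ : ℝ → L} (hy : y ∈ K τ₀)
    (hb : ∀ θ ∈ Icc (0 : ℝ) 1, ∀ s ∈ Icc (0 : ℝ) 1,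
      AffineMap.lineMap y (AffineMap.lineMap w w' θ : E) s ∉ Bad)
    (hμ : IsLift K R (AffineMap.lineMap w w') μ (Icc 0 1))
    (hl0 : l 0 = τ₀) (hl : IsLift K R (AffineMap.lineMap y w) l (Icc 0 1))
    (hl'0 : l' 0 = τ₀) (hl' : IsLift K R (AffineMap.lineMap y w') l' (Icc 0 1))
    (h : R w (μ 0) (l 1)) : R w' (μ 1) (l' 1) := by
  classical
  have h0I : (0 : ℝ) ∈ Icc (0 : ℝ) 1 := ⟨le_rfl, zero_le_one⟩
  have h1I : (1 : ℝ) ∈ Icc (0 : ℝ) 1 := ⟨zero_le_one, le_rfl⟩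
  set W : ℝ → E := fun θ => AffineMap.lineMap w w' θ with hW
  have hWc : Continuous W := AffineMap.lineMap_continuous
  have hW0 : W 0 = w := AffineMap.lineMap_apply_zero w w'
  have hW1 : W 1 = w' := AffineMap.lineMap_apply_one w w'
  have hex : ∀ θ ∈ Icc (0 : ℝ) 1, ∃ l : ℝ → L, l 0 = τ₀ ∧
      IsLift K R (AffineMap.lineMap y (W θ)) l (Icc 0 1) :=
    fun θ hθ => exists_lift S hy (hb θ hθ)
  have hne : Nonempty L := ⟨τ₀⟩
  choose! G hG0 hG using hex
  have hend : ∀ z : E, AffineMap.lineMap y z (1 : ℝ) = z := fun z => AffineMap.lineMap_apply_one y z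
  have hbW : ∀ θ ∈ Icc (0 : ℝ) 1, W θ ∉ Bad := by
    intro θ hθ
    have := hb θ hθ 1 h1I
    rw [hend] at this
    exact this
  have hstart : R (W 0) (μ 0) (G 0 1) := by
    have h2 : R (AffineMap.lineMap y (W 0) (1 : ℝ)) (l 1) (G 0 1) := by
      refine lift_unique S (c := fun s => AffineMap.lineMap y (W 0) s) (I := Icc 0 1)
        isPreconnected_Icc AffineMap.lineMap_continuous.continuousOn (hb 0 h0I) ?_ (hG 0 h0I)
        h0I h1I ?_
      · rw [hW0]
        exact hl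
      · rw [hl0, hG0 0 h0I]
        have : AffineMap.lineMap y (W 0) (0 : ℝ) = y := AffineMap.lineMap_apply_zero _ _
        rw [this]
        exact S.refl _ _ hy
    rw [hend, hW0] at h2
    rw [hW0]
    exact S.trans _ _ _ _ h h2
  have hfin : R (W 1) (μ 1) (G 1 1) := by
    refine (iff_of_loc (isPreconnected_Icc (a := (0 : ℝ)) (b := 1))
      (fun θ => R (W θ) (μ θ) (G θ 1)) ?_ h0I h1I).1 hstart
    intro θ₀ hθ₀
    obtain ⟨ε, hε, hst⟩ := lift_stable S (hb θ₀ hθ₀) (hG0 θ₀ hθ₀) (hG θ₀ hθ₀) 1 h1I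
    rw [hend] at hst
    have hp : W θ₀ ∈ K (G θ₀ 1) := by
      have := (hG θ₀ hθ₀).1 1 h1I
      rw [hend] at this
      exact this
    obtain ⟨ρ, hρ, -, hloc⟩ := S.loc (W θ₀) (G θ₀ 1) (hbW θ₀ hθ₀) hp
    have hnear : ∀ᶠ t in 𝓝[Icc 0 1] θ₀, dist (W t) (W θ₀) < min ε ρ :=
      mem_nhdsWithin_of_mem_nhds ((hWc.tendsto θ₀).eventually (ball_mem_nhds _ (lt_min hε hρ)))
    filter_upwards [hnear, hμ.2 θ₀ hθ₀, self_mem_nhdsWithin] with θ e1 e2 e3
    have e4 : R (W θ₀) (G θ₀ 1) (G θ 1) :=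
      hst (W θ) (e1.trans_le (min_le_left _ _)) (hb θ e3) (G θ) (hG0 θ e3) (hG θ e3)
    have e5 : W θ ∈ K (G θ 1) := by
      have := (hG θ e3).1 1 h1I
      rw [hend] at this
      exact this
    have e6 : dist (W θ) (W θ₀) < ρ := e1.trans_le (min_le_right _ _)
    constructor
    · intro e7
      have e8 := (hloc (W θ) (hbW θ e3) e6 (G θ 1) e4 e5 (μ θ)).1 (S.symm _ _ _ e7)
      exact S.trans _ _ _ _ e2 (S.symm _ _ _ e8.1)
    · intro e7
      have e8 : R (W θ₀) (G θ₀ 1) (μ θ) := S.trans _ _ _ _ (S.symm _ _ _ e7) e2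
      exact (hloc (W θ) (hbW θ e3) e6 (μ θ) e8 (hμ.1 θ e3) (G θ 1)).2 ⟨e4, e5⟩
  have hlast : R (AffineMap.lineMap y (W 1) (1 : ℝ)) (G 1 1) (l' 1) := by
    refine lift_unique S (c := fun s => AffineMap.lineMap y (W 1) s) (I := Icc 0 1)
      isPreconnected_Icc AffineMap.lineMap_continuous.continuousOn (hb 1 h1I) (hG 1 h1I) ?_
      h0I h1I ?_
    · rw [hW1]
      exact hl'
    · rw [hl'0, hG0 1 h1I]
      have : AffineMap.lineMap y (W 1) (0 : ℝ) = y := AffineMap.lineMap_apply_zero _ _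
      rw [this]
      exact S.refl _ _ hy
  rw [hend, hW1] at hlast
  rw [hW1] at hfin
  exact S.trans _ _ _ _ hfin hlast

end Pool.FF65
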